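import Pool.Agent.Lib.MP_b5021c_nt.IfaceO4V
import Pool.Agent.Lib.MP_b5021c_nt.KE.H96.Mid
import Pool.Agent.Lib.MP_b5021c_nt.E.H59.Lat
import Pool.Agent.Lib.MP_b5021c_nt.E.H56.T2o

/-!
# MP_b5021c_nt, all `θ`, K odd, row O4_AF: a unit ray of the A-closing is a ray of the only factor
-/

namespace Pool.Agent.B5.O4H02

open scoped LaurentPolynomial
open Polynomial
open Pool.Agent.B5.KE
open Pool.Agent.B5.Nr.Sch (Loc)
open Pool.Agent.B5.H40 (uT)

/-- A factor of class `V(N)` of a Laurent polynomial with the lowest coefficient one has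
`N = 1`. -/
theorem v_one {p : ℤ[X]} (hp : p.coeff 0 = 1) {N : ℝ} {y x : RO ℤ} (hy : ClassV N y)
    (h : (toLaurent p : RO ℤ) = x * y) : N = 1 := by
  obtain ⟨hN1, m, g, hg, hg0, -⟩ := hy
  have hg00 : g.coeff 0 ≠ 0 := by
    intro h0
    rw [h0, map_zero, norm_zero] at hg0
    linarith
  rw [hg] at h
  have h4 := low_dvd hp hg00 h
  rw [Int.isUnit_iff] at h4
  rw [← hg0]
  change ‖((g.coeff 0 : ℤ) : ℂ)‖ = 1
  rw [Complex.norm_intCast]
  rcases h4 with h4 | h4 <;> rw [h4] <;> simp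

/-- (O4_AF) -/
theorem o4af (hA : O4aS) (hFD : FDS) (hClp : ClpS) (hE1 : E1S) (hMV : MVS) (hMm : MmulS)
    (hC0 : Coeff0S) (hG0 : G0S) (hWW : WWfS) (hRF : RayFacS) (hI1 : Inj1S) : O4afS := by
  classical
  intro P L _ _ _ _ _ phi D q f E a p j eta C S0 S1 e0 e1 i0 h x w1 gg H hray hx hg0
  have fp : FP phi D := H.kc.ko.min.fp
  have hD := fp.dd
  have hR : RN D S0 q f e0 a := H.r0
  have hrk : Module.finrank ℤ L = 2 * j + 1 := H.kc.ko.rk
  have hj2 : 2 ≤ j := H.kc.ko.j2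
  have hS0 : Ray D S0 := H.kc.kc.ray S0 H.m0
  have cc : CC phi D S0 i0 (-e0) := ⟨hD, by omega, hS0, h, V0_ne_A hR⟩
  obtain ⟨c, n, G, fd⟩ := hFD ℤ P L phi D S0 i0 (-e0) h cc
  obtain ⟨hEj, hcu, hbig, -⟩ := hA P L phi D q f E a p j eta C S0 S1 e0 e1 i0 h c n G H fd
  have hdr : Module.finrank ℤ L = rk (supp (cl (co phi i0) S0 h (-e0) D)) + 1 + 1 := by
    have h1 := H.kc.kc.dr S0 H.m0 i0 h
    rw [H.t0] at h1
    exact h1
  -- a factor with the exponent `x`
  obtain ⟨l, hl⟩ := hRF ℤ P L phi D S0 i0 (-e0) h c n G fd x hray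
  have hsup : supp (cl (co phi i0) S0 h (-e0) D) = supp (∏ i, G i) := by
    rw [fd.eq, H56.supp_cst_mul fd.c0]
  obtain ⟨hst, -, -, -, -, -⟩ := hG0 ℤ P L phi D S0 i0 (-e0) h fd.cc
  obtain ⟨hV0, lam, hpos, -⟩ := id hst
  have hGpos : ∀ i, Pos lam (G i) := fun i => (fd.full i lam hpos).2.1
  have hGz : ∀ i, (G i).coeff 0 ≠ 0 := fun i => (fd.st i).1
  have hsplit : ∏ i, G i = G l * ∏ i ∈ Finset.univ.erase l, G i :=
    (Finset.mul_prod_erase Finset.univ G (Finset.mem_univ l)).symm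
  obtain ⟨hH0, -⟩ := H29.prod_coeff_zero hC0 G lam hGpos (Finset.univ.erase l)
  have hcoefb : (∏ i, G i).coeff x = (G l).coeff x * ∏ i ∈ Finset.univ.erase l, (G i).coeff 0 := by
    rw [hsplit, ← hH0]
    apply coef_split hWW (psi := phO phi S0 i0) ((hI1 ℤ P L phi D fp S0 hS0).2 i0 h)
    · intro b hb
      rw [← hsplit, ← hsup] at hb
      exact (hClp ℤ P L phi D S0 i0 (-e0) h c n G fp fd).1 b hb
    · exact hGz l
    · rw [hH0]
      exact Finset.prod_ne_zero_iff.mpr fun i _ => hGz i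
    · exact hl
  have hcx : (w1 : RO ℤ) * (c * ((G l).coeff x * ∏ i ∈ Finset.univ.erase l, (G i).coeff 0)) =
      toLaurent gg := by
    rw [← hx, fd.eq, H56.cstm, hcoefb]
  -- the class of the constant coefficient
  have hv0 : (toLaurent (q - f) : RO ℤ) = c * ∏ i, (G i).coeff 0 := by
    rw [← V0_A hR]
    exact fd.v00
  have hqf : (toLaurent (q - f) : RO ℤ) = -(LaurentPolynomial.T 1 * toLaurent E) := by
    have h1 : q - f = -(X * E) := by rw [← H.eq]; ring
    rw [h1, map_neg, map_mul, toLaurent_X]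
  have hcV : ClassV (j : ℝ) (toLaurent (q - f) : RO ℤ) := by
    refine ⟨by exact_mod_cast (by omega : 1 ≤ j), 1, -E, ?_, ?_, ?_⟩
    · rw [hqf, map_neg, mul_neg]
    · rw [coeff_neg, map_neg, norm_neg]
      change ‖((E.coeff 0 : ℤ) : ℂ)‖ = _
      rw [hEj, Complex.norm_intCast]
      simp
    · intro z hz
      rw [ev_map, map_neg]
      exact neg_ne_zero.mpr (H.ez z hz.le)
  -- there is no other factor
  have hone : ∀ i, i = l := by
    intro i
    by_contra hi
    have hb := hbig i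
    have hi' : i ∈ Finset.univ.erase l := Finset.mem_erase.mpr ⟨hi, Finset.mem_univ i⟩
    have h1 : (toLaurent (q - f) : RO ℤ) = (G i).coeff 0 *
        (c * ∏ k ∈ Finset.univ.erase i, (G k).coeff 0) := by
      rw [hv0, ← Finset.mul_prod_erase Finset.univ (fun k => (G k).coeff 0) (Finset.mem_univ i)]
      ring
    rw [h1] at hcV
    obtain ⟨N1, N2, hN1, -, -⟩ := (hE1 ℤ).1 _ _ _ hcV
    rw [((hMV ℤ).1 _ _ hN1).2] at hb
    have h2 : N1 = 1 := by
      apply v_one hg0 hN1 (x := (w1 : RO ℤ) * c * (G l).coeff x *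
        ∏ k ∈ (Finset.univ.erase l).erase i, (G k).coeff 0)
      rw [← hcx, ← Finset.mul_prod_erase (Finset.univ.erase l) (fun k => (G k).coeff 0) hi']
      ring
    linarith
  have herase : Finset.univ.erase l = (∅ : Finset (Fin n)) := by
    rw [Finset.eq_empty_iff_forall_notMem]
    intro i hi
    exact (Finset.mem_erase.mp hi).1 (hone i)
  have hprod : ∏ i, G i = G l := by
    rw [hsplit, herase, Finset.prod_empty, mul_one]
  rw [herase, Finset.prod_empty, mul_one] at hcx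
  have hv1 : (toLaurent (q - f) : RO ℤ) = c * (G l).coeff 0 := by
    rw [hv0, ← Finset.mul_prod_erase Finset.univ (fun k => (G k).coeff 0) (Finset.mem_univ l),
      herase, Finset.prod_empty, mul_one]
  have hsl : supp (cl (co phi i0) S0 h (-e0) D) = supp (G l) := by rw [hsup, hprod]
  -- the class of the factor
  have hVl : ClassV (j : ℝ) ((G l).coeff 0) := by
    rw [hv1] at hcV
    obtain ⟨N1, N2, hN1, hN2, hN⟩ := (hE1 ℤ).1 _ _ _ hcV
    have h1 : N1 = 1 := by
      rw [← ((hMV ℤ).1 _ _ hN1).2]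
      exact (hMm ℤ).2.2 c hcu
    rw [h1, one_mul] at hN
    rw [hN]
    exact hN2
  obtain ⟨-, K, -, hK, hKr, hdd⟩ := (hClp ℤ P L phi D S0 i0 (-e0) h c n G fp fd).2 l
  obtain ⟨cu, hcu'⟩ := hcu
  refine ⟨P, K, inferInstance, inferInstance, inferInstance, inferInstance, inferInstance,
    (phO phi S0 i0).comp (incl K), res K (G l), ⟨x, hK x hl⟩, uT (-1 : ℤˣ) (-1) * cu, w1 * cu,
    hdd, ?_, ?_, ?_, ?_, ?_⟩
  · rw [res_coeff]
    exact hVl
  · rw [hKr, ← hsl]
    omega
  · rw [H59.ray_res (G l) K hK]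
    exact ray_congr hsl hray
  · rw [res_coeff, Units.val_mul, H40.uT_val, hcu', mul_assoc]
    change _ * (c * (G l).coeff 0) = _
    rw [← hv1, hqf]
    have h2 : (LaurentPolynomial.T (-1) : RO ℤ) * LaurentPolynomial.T 1 = 1 := by
      rw [← LaurentPolynomial.T_add, neg_add_cancel, LaurentPolynomial.T_zero]
    calc _ = (LaurentPolynomial.T (-1) * LaurentPolynomial.T 1) * toLaurent E := by
          simp only [Units.val_neg, Units.val_one, map_neg, map_one]
          ring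
      _ = _ := by rw [h2, one_mul]
  · rw [res_coeff, Units.val_mul, hcu', mul_assoc]
    exact hcx

end Pool.Agent.B5.O4H02
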